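import Pool.Agent.H203.HX.ALLH5

/-!
# The extreme discrepancies of the zeros in almost all short intervals

The zeros are counted with multiplicity.  Only part (3) assumes that they are on the critical line (the setting of the problem).

Let `χ_1, …, χ_k` be primitive Dirichlet characters (the character modulo `1` gives the zeta function) and `c` a vector of real weights with
Euclidean norm `|c|`; for `k = 1`, `c = 1` one function.  Let `h = h(T) ≤ 1` with `h log T → ∞`, and `L = h log T` (up to a factor `2π` the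
number of zeros in an interval of length `h`).  The discrepancy of an interval for `L(s, χ_j)` is the number of zeros with ordinate in it minus
`length · (log T)/2π`; up to `O(1)` it is the increment of the argument `S(·, χ_j)`.  Let `W(I)` be the weighted sum of the discrepancies of the
interval `I`.  Almost all `t` means: all `t` in `[T, 2T]` outside a set of measure `o(T)`.

(1) Lower bound, unconditional.  If the characters are distinct and `c ≠ 0`, for almost all `t` the interval `(t, t + h]` has a subinterval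
`I` with `W(I) ≥ (2/π - ε) |c| log L`; with `-c` for `c`: also one with `W(I) ≤ -(2/π - ε) |c| log L`.

(2) Upper bound, unconditional.  There is a constant `C(χ, c)` such that for almost all `t` ALL the subintervals `I` of `(t, t + h]` have
`|W(I)| ≤ C(χ, c) log L`.

(3) Sharp upper bound.  If the characters are distinct, `c ≠ 0` and all the zeros of the `L(s, χ_j)` in the critical strip are on the critical
line, then for almost all `t` ALL the subintervals `I` of `(t, t + h]` have `|W(I)| ≤ (2/π + ε) |c| log L`.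

So the largest discrepancy in almost all intervals of length `h` is of the exact order `log L`, the logarithm of the number of zeros, and on
the Riemann hypothesis it is `(2/π + o(1)) log L` at every scale `h ≤ 1`, `h log T → ∞` (maximum and minus minimum), as in the random matrix
model (circular unitary ensemble of size `N = L`: the imaginary part of the logarithm of the characteristic polynomial has maximum and
minimum `± (1 + o(1)) log N`).  For `c = (1, …, 1)`, the product of `k` distinct L-functions (e.g. the Dedekind zeta function of an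
abelian field of degree `k`), the constant is `2 √k / π`; for `c = (1, -1)`: the numbers of zeros of two L-functions in one and the same
interval differ by at most `(2 √2 / π + o(1)) log L`, and this is attained: at the level of the extremes the zeros of distinct L-functions
behave independently.
-/

open Complex Filter Topology Set MeasureTheory

namespace Pool.Agent.Results.MP_7eacff_nt.ExtremeDiscrepancies

/-- a primitive Dirichlet character; the character modulo `1` gives the zeta function -/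
structure PChar where
  q : ℕ
  ne : NeZero q
  χ : DirichletCharacter ℂ q
  prim : χ.IsPrimitive

/-- `L(s, χ)` -/
noncomputable def PChar.L (c : PChar) : ℂ → ℂ :=
  have := c.ne
  DirichletCharacter.LFunction c.χ

/-- the values of the character at the integers -/
noncomputable def PChar.val (c : PChar) (m : ℕ) : ℂ := c.χ (m : ZMod c.q)

/-- the nontrivial zeros with ordinate in `(a, b]` -/
def window (L : ℂ → ℂ) (a b : ℝ) : Set ℂ := {s : ℂ | (L s = 0 ∧ 0 < s.re ∧ s.re < 1) ∧ a < s.im ∧ s.im ≤ b}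

/-- the number of zeros with ordinate in `(a, b]`, with multiplicity -/
noncomputable def count (L : ℂ → ℂ) (a b : ℝ) : ℝ := ∑ᶠ s ∈ window L a b, (analyticOrderNatAt L s : ℝ)

/-- the discrepancy: the number of zeros minus its expected value for heights in `[T, 2T]` -/
noncomputable def disc (L : ℂ → ℂ) (T a b : ℝ) : ℝ := count L a b - (b - a) * (Real.log T / (2 * Real.pi))

/-- the heights `t` in `[T, 2T]` such that in some subinterval of `(t, t + h]` the weighted sum of the discrepancies is more than `B` -/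
def good {k : ℕ} (χ : Fin k → PChar) (c : Fin k → ℝ) (T h B : ℝ) : Set ℝ := {t : ℝ | T ≤ t ∧ t ≤ 2 * T ∧
  ∃ x y : ℝ, 0 ≤ x ∧ x < y ∧ y ≤ h ∧ B < ∑ j, c j * disc (χ j).L T (t + x) (t + y)}

/-- the heights `t` in `[T, 2T]` such that in some subinterval of `(t, t + h]` the weighted sum of the discrepancies has modulus more than
`B` -/
def bad {k : ℕ} (χ : Fin k → PChar) (c : Fin k → ℝ) (T h B : ℝ) : Set ℝ := {t : ℝ | T ≤ t ∧ t ≤ 2 * T ∧
  ∃ x y : ℝ, 0 ≤ x ∧ x < y ∧ y ≤ h ∧ B < |∑ j, c j * disc (χ j).L T (t + x) (t + y)|}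

lemma window_eq (G : ℂ → ℂ) (a b : ℝ) : window G a b = H370.zset G a b := by
  ext s
  exact ⟨fun ⟨⟨a, b, c⟩, d, e⟩ => ⟨b, c, d, e, a⟩, fun ⟨b, c, d, e, a⟩ => ⟨⟨a, b, c⟩, d, e⟩⟩

lemma count_eq {G : ℂ → ℂ} (hG : H370.GoodL G) {a : ℝ} (b : ℝ) (ha : 1 ≤ a) :
    count G a b = (H370.NN G a b : ℝ) := by
  unfold count
  rw [window_eq, H370.finsum_Zf hG ha, H370.NN_eq hG ha]
  push_cast
  rfl

/-- the lower bound -/
lemma lower (k : ℕ) (χ : Fin k → PChar) (hd : ∀ i j, i ≠ j → ∃ m : ℕ, (χ i).val m ≠ (χ j).val m) (c : Fin k → ℝ)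
    (hc : ∃ j, c j ≠ 0) (h : ℝ → ℝ) (hh : ∀ᶠ T in atTop, 0 < h T ∧ h T ≤ 1)
    (hL : Tendsto (fun T => h T * Real.log T) atTop atTop) (ε : ℝ) (hε : 0 < ε) :
    Tendsto (fun T : ℝ => volume (Icc T (2 * T) \ good χ c T (h T)
      ((2 / Real.pi - ε) * Real.sqrt (∑ j, (c j) ^ 2) * Real.log (h T * Real.log T))) / ENNReal.ofReal T) atTop (𝓝 0) := by
  obtain ⟨j0, hj0⟩ := hc
  have hS : 0 < ∑ j, (c j) ^ 2 :=
    lt_of_lt_of_le (by positivity) (Finset.single_le_sum (f := fun j => (c j) ^ 2) (fun j _ => sq_nonneg _) (Finset.mem_univ j0))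
  set r : ℝ := Real.sqrt (∑ j, (c j) ^ 2) with hr
  have hr0 : 0 < r := Real.sqrt_pos.2 hS
  have hrr : r ^ 2 = ∑ j, (c j) ^ 2 := Real.sq_sqrt hS.le
  have h1 := Pool.Agent.H203.HX.main3 k (fun j => (χ j).q) (fun j => (χ j).ne) (fun j => (χ j).χ) (fun j => (χ j).prim)
    hd (fun j => c j / r) (by
      simp only [div_pow]
      rw [← Finset.sum_div, hrr, div_self hS.ne']) h hh hL ε hε
  refine tendsto_of_tendsto_of_tendsto_of_le_of_le' tendsto_const_nhds h1 (Eventually.of_forall fun _ => bot_le) ?_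
  filter_upwards [eventually_ge_atTop (1 : ℝ)] with T hT
  refine ENNReal.div_le_div_right (measure_mono ?_) _
  intro t ht
  obtain ⟨⟨ht1, ht2⟩, ht3⟩ := ht
  refine ⟨ht1, ht2, fun x y hx hxy hy => ?_⟩
  by_contra hlt
  apply ht3
  refine ⟨ht1, ht2, x, y, hx, hxy, hy, ?_⟩
  have hcount : ∀ j, disc (χ j).L T (t + x) (t + y) =
      (H370.NN (@DirichletCharacter.LFunction (χ j).q (χ j).ne (χ j).χ) (t + x) (t + y) : ℝ) -
        (y - x) * Real.log T / (2 * Real.pi) := by
    intro j
    unfold disc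
    have hG := (@Pool.Agent.H203.GE.t_LFX (χ j).q (χ j).ne (χ j).χ (χ j).prim).good
    have e1 : count (χ j).L (t + x) (t + y) =
        (H370.NN (@DirichletCharacter.LFunction (χ j).q (χ j).ne (χ j).χ) (t + x) (t + y) : ℝ) :=
      count_eq hG _ (by linarith)
    rw [e1]
    ring
  have h2 := not_le.1 hlt
  have h3 : ∑ j, c j * disc (χ j).L T (t + x) (t + y) = r * ∑ j, c j / r *
      ((H370.NN (@DirichletCharacter.LFunction (χ j).q (χ j).ne (χ j).χ) (t + x) (t + y) : ℝ) -
        (y - x) * Real.log T / (2 * Real.pi)) := by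
    rw [Finset.mul_sum]
    refine Finset.sum_congr rfl fun j _ => ?_
    rw [hcount j]
    field_simp
  rw [h3]
  calc (2 / Real.pi - ε) * r * Real.log (h T * Real.log T) = r * ((2 / Real.pi - ε) * Real.log (h T * Real.log T)) := by ring
    _ < _ := mul_lt_mul_of_pos_left h2 hr0

/-- the discrepancy in terms of the internal counting function -/
lemma disc_eq (χ : PChar) {T t x y : ℝ} (ht : 1 ≤ t + x) :
    disc χ.L T (t + x) (t + y) = (H370.NN (@DirichletCharacter.LFunction χ.q χ.ne χ.χ) (t + x) (t + y) : ℝ) -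
      (y - x) * Real.log T / (2 * Real.pi) := by
  unfold disc
  have hG := (@Pool.Agent.H203.GE.t_LFX χ.q χ.ne χ.χ χ.prim).good
  have e1 : count χ.L (t + x) (t + y) = (H370.NN (@DirichletCharacter.LFunction χ.q χ.ne χ.χ) (t + x) (t + y) : ℝ) :=
    count_eq hG _ ht
  rw [e1]
  ring

/-- the unconditional upper bound -/
lemma upper (k : ℕ) (χ : Fin k → PChar) (c : Fin k → ℝ) : ∃ C : ℝ, 0 < C ∧ ∀ h : ℝ → ℝ, (∀ᶠ T in atTop, 0 < h T ∧ h T ≤ 1) →
      Tendsto (fun T => h T * Real.log T) atTop atTop →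
      Tendsto (fun T : ℝ => volume (bad χ c T (h T) (C * Real.log (h T * Real.log T))) / ENNReal.ofReal T) atTop (𝓝 0) := by
  have H : ∀ j, ∃ C : ℝ, 0 < C ∧ ∀ h : ℝ → ℝ, (∀ᶠ T in atTop, 0 < h T ∧ h T ≤ 1) →
      Tendsto (fun T => h T * Real.log T) atTop atTop →
      Tendsto (fun T : ℝ => volume (Pool.Agent.H203.HX.Ub (@DirichletCharacter.LFunction (χ j).q (χ j).ne (χ j).χ) T (h T)
        (C * Real.log (h T * Real.log T))) / ENNReal.ofReal T) atTop (𝓝 0) :=
    fun j => @Pool.Agent.H203.HX.main5 (χ j).q (χ j).ne (χ j).χ (χ j).prim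
  choose D hD HD using H
  refine ⟨∑ j, |c j| * D j + 1, add_pos_of_nonneg_of_pos (Finset.sum_nonneg fun j _ => mul_nonneg (abs_nonneg _) (hD j).le) one_pos,
    fun h hh hL => ?_⟩
  have hsum : Tendsto (fun T : ℝ => ∑ j, volume (Pool.Agent.H203.HX.Ub (@DirichletCharacter.LFunction (χ j).q (χ j).ne (χ j).χ) T (h T)
        (D j * Real.log (h T * Real.log T))) / ENNReal.ofReal T) atTop (𝓝 (∑ _j : Fin k, 0)) :=
    tendsto_finsetSum _ fun j _ => HD j h hh hL
  rw [Finset.sum_const_zero] at hsum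
  refine tendsto_of_tendsto_of_tendsto_of_le_of_le' tendsto_const_nhds hsum (Eventually.of_forall fun _ => bot_le) ?_
  filter_upwards [eventually_ge_atTop (1 : ℝ), hL.eventually_gt_atTop 1] with T hT hLT
  have hl : 0 < Real.log (h T * Real.log T) := Real.log_pos hLT
  simp only [div_eq_mul_inv]
  rw [← Finset.sum_mul]
  gcongr
  refine (measure_mono ?_).trans (measure_iUnion_fintype_le _ _)
  rintro t ⟨ht1, ht2, x, y, hx, hxy, hy, hlt⟩
  rw [mem_iUnion]
  by_contra hcon
  rw [not_exists] at hcon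
  have hj : ∀ j, |disc (χ j).L T (t + x) (t + y)| ≤ D j * Real.log (h T * Real.log T) := by
    intro j
    by_contra hc
    apply hcon j
    refine ⟨ht1, ht2, x, y, hx, hxy, hy, ?_⟩
    rw [← disc_eq (χ j) (by linarith)]
    exact not_le.1 hc
  have h1 : |∑ j, c j * disc (χ j).L T (t + x) (t + y)| ≤ (∑ j, |c j| * D j) * Real.log (h T * Real.log T) := by
    rw [Finset.sum_mul]
    refine (Finset.abs_sum_le_sum_abs _ _).trans (Finset.sum_le_sum fun j _ => ?_)
    rw [abs_mul, mul_assoc]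
    exact mul_le_mul_of_nonneg_left (hj j) (abs_nonneg _)
  nlinarith

/-- the sharp upper bound when the zeros are on the line -/
lemma sharp (k : ℕ) (χ : Fin k → PChar) (hd : ∀ i j, i ≠ j → ∃ m : ℕ, (χ i).val m ≠ (χ j).val m)
    (hRH : ∀ j, ∀ s : ℂ, (χ j).L s = 0 → 0 < s.re → s.re < 1 → s.re = 1 / 2) (c : Fin k → ℝ)
    (hc : ∃ j, c j ≠ 0) (h : ℝ → ℝ) (hh : ∀ᶠ T in atTop, 0 < h T ∧ h T ≤ 1)
    (hL : Tendsto (fun T => h T * Real.log T) atTop atTop) (ε : ℝ) (hε : 0 < ε) :
    Tendsto (fun T : ℝ => volume (bad χ c T (h T)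
      ((2 / Real.pi + ε) * Real.sqrt (∑ j, (c j) ^ 2) * Real.log (h T * Real.log T))) / ENNReal.ofReal T) atTop (𝓝 0) := by
  obtain ⟨j0, hj0⟩ := hc
  have hS : 0 < ∑ j, (c j) ^ 2 :=
    lt_of_lt_of_le (by positivity) (Finset.single_le_sum (f := fun j => (c j) ^ 2) (fun j _ => sq_nonneg _) (Finset.mem_univ j0))
  set r : ℝ := Real.sqrt (∑ j, (c j) ^ 2) with hr
  have hr0 : 0 < r := Real.sqrt_pos.2 hS
  have hrr : r ^ 2 = ∑ j, (c j) ^ 2 := Real.sq_sqrt hS.le
  have h1 := Pool.Agent.H203.HX.main7 k (fun j => (χ j).q) (fun j => (χ j).ne) (fun j => (χ j).χ) (fun j => (χ j).prim)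
    hd (fun j => c j / r) (by
      simp only [div_pow]
      rw [← Finset.sum_div, hrr, div_self hS.ne']) hRH h hh hL ε hε
  refine tendsto_of_tendsto_of_tendsto_of_le_of_le' tendsto_const_nhds h1 (Eventually.of_forall fun _ => bot_le) ?_
  filter_upwards [eventually_ge_atTop (1 : ℝ)] with T hT
  refine ENNReal.div_le_div_right (measure_mono ?_) _
  rintro t ⟨ht1, ht2, x, y, hx, hxy, hy, hlt⟩
  refine ⟨ht1, ht2, x, y, hx, hxy, hy, ?_⟩
  have h3 : ∑ j, c j * disc (χ j).L T (t + x) (t + y) = r * ∑ j, c j / r *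
      ((H370.NN (@DirichletCharacter.LFunction (χ j).q (χ j).ne (χ j).χ) (t + x) (t + y) : ℝ) -
        (y - x) * Real.log T / (2 * Real.pi)) := by
    rw [Finset.mul_sum]
    refine Finset.sum_congr rfl fun j _ => ?_
    rw [disc_eq (χ j) (by linarith)]
    field_simp
  rw [h3, abs_mul, abs_of_pos hr0] at hlt
  refine lt_of_mul_lt_mul_left (lt_of_le_of_lt (le_of_eq ?_) hlt) hr0.le
  ring

/-- **The extreme discrepancies of the zeros in almost all short intervals.** -/
theorem result :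
    (∀ (k : ℕ) (χ : Fin k → PChar), (∀ i j, i ≠ j → ∃ m : ℕ, (χ i).val m ≠ (χ j).val m) → ∀ c : Fin k → ℝ, (∃ j, c j ≠ 0) →
      ∀ h : ℝ → ℝ, (∀ᶠ T in atTop, 0 < h T ∧ h T ≤ 1) → Tendsto (fun T => h T * Real.log T) atTop atTop → ∀ ε : ℝ, 0 < ε →
      Tendsto (fun T : ℝ => volume (Icc T (2 * T) \ good χ c T (h T)
        ((2 / Real.pi - ε) * Real.sqrt (∑ j, (c j) ^ 2) * Real.log (h T * Real.log T))) / ENNReal.ofReal T) atTop (𝓝 0)) ∧
    (∀ (k : ℕ) (χ : Fin k → PChar) (c : Fin k → ℝ), ∃ C : ℝ, 0 < C ∧ ∀ h : ℝ → ℝ, (∀ᶠ T in atTop, 0 < h T ∧ h T ≤ 1) →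
      Tendsto (fun T => h T * Real.log T) atTop atTop →
      Tendsto (fun T : ℝ => volume (bad χ c T (h T) (C * Real.log (h T * Real.log T))) / ENNReal.ofReal T) atTop (𝓝 0)) ∧
    (∀ (k : ℕ) (χ : Fin k → PChar), (∀ i j, i ≠ j → ∃ m : ℕ, (χ i).val m ≠ (χ j).val m) →
      (∀ j, ∀ s : ℂ, (χ j).L s = 0 → 0 < s.re → s.re < 1 → s.re = 1 / 2) → ∀ c : Fin k → ℝ, (∃ j, c j ≠ 0) →
      ∀ h : ℝ → ℝ, (∀ᶠ T in atTop, 0 < h T ∧ h T ≤ 1) → Tendsto (fun T => h T * Real.log T) atTop atTop → ∀ ε : ℝ, 0 < ε →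
      Tendsto (fun T : ℝ => volume (bad χ c T (h T)
        ((2 / Real.pi + ε) * Real.sqrt (∑ j, (c j) ^ 2) * Real.log (h T * Real.log T))) / ENNReal.ofReal T) atTop (𝓝 0)) :=
  ⟨fun k χ hd c hc h hh hL ε hε => lower k χ hd c hc h hh hL ε hε, fun k χ c => upper k χ c,
    fun k χ hd hRH c hc h hh hL ε hε => sharp k χ hd hRH c hc h hh hL ε hε⟩

end Pool.Agent.Results.MP_7eacff_nt.ExtremeDiscrepancies
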