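import Pool.Agent.H203.ME.ALL4

set_option autoImplicit false

/-!
# Sums of consecutive gaps of the zeros of zeta: unconditional Gaussian laws at all scales

No hypothesis on the zeros is made.  `γ n` is the `n`-th ordinate and `δ n` the unfolded gap, as in the problem.  For
`n` uniform in `{1, …, N}` the centred partial sums `δ_n + … + δ_{n+u-1} - u` of consecutive gaps have asymptotically
the same Gaussian laws as in the GUE model.  For one sum of `r` gaps the law is normal with variance `(1/π²) log r`, up to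
an error which is small as soon as `r` is large (`r` may be fixed while `N → ∞`, or grow with `N` like `o(log N)`);
jointly, for several sums, one obtains the logarithmically correlated Gaussian field.
-/

open Filter Topology Set MeasureTheory ProbabilityTheory
open scoped BoundedContinuousFunction

namespace Pool.Agent.Results.MP_7eacff_nt.GapSumsGaussianField

/-- the number of nontrivial zeros of `ζ` with ordinate in `(0, t]`, with multiplicity (order of vanishing) -/
noncomputable def NZ (t : ℝ) : ℕ :=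
  ∑ᶠ s ∈ {s : ℂ | riemannZeta s = 0 ∧ 0 < s.re ∧ s.re < 1 ∧ 0 < s.im ∧ s.im ≤ t}, analyticOrderNatAt riemannZeta s

/-- for `n ≥ 1` the `n`-th positive ordinate, the ordinates being listed in nondecreasing order with multiplicity -/
noncomputable def γ (n : ℕ) : ℝ := sInf {t : ℝ | n ≤ NZ t}

/-- the unfolded gap `δ_n = (γ_{n+1} - γ_n) / 2π · log (γ_n / 2π)` -/
noncomputable def δ (n : ℕ) : ℝ := (γ (n + 1) - γ n) / (2 * Real.pi) * Real.log (γ n / (2 * Real.pi))

/-- the centred sum of the `u` consecutive gaps `δ_n, …, δ_{n+u-1}` -/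
noncomputable def W (n u : ℕ) : ℝ := ∑ i ∈ Finset.range u, δ (n + i) - u

/-- the limiting covariance matrix -/
noncomputable def covMatrix {k : ℕ} (a0 : Fin k → ℝ) (a : Fin k → Fin k → ℝ) : Matrix (Fin k) (Fin k) ℝ :=
  Matrix.of fun i j => 1 / (2 * Real.pi ^ 2) * (a0 i + a0 j - a i j)

/-- (1) For every real `x` and `ε > 0` there are `r0`, `κ > 0`, `N0` such that for all `N ≥ N0` and all `r` with
`r0 ≤ r ≤ κ log N` the proportion of the `n ≤ N` with `δ_n + … + δ_{n+r-1} - r ≤ x √(log r) / π` differs from the normal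
distribution function at `x` by at most `ε`.
(2) Let `u_1, …, u_k` be functions of `N` with values in the natural numbers, `u_j = o(log N)`, and `V = V(N) → ∞`,
`V = o(log N)`, such that `log (1 + u_j) / V → a0_j` and `log (1 + |u_i - u_j|) / V → a_ij`.  Then for `n` uniform in
`{1, …, N}` the vector `((δ_n + … + δ_{n+u_j-1} - u_j) / √V)_j` converges in law to the centred Gaussian vector with the
covariance matrix `(a0_i + a0_j - a_ij) / 2π²`. -/
theorem result :
    (∀ x ε : ℝ, 0 < ε → ∃ r0 : ℕ, ∃ κ : ℝ, 0 < κ ∧ ∃ N0 : ℕ, ∀ N : ℕ, N0 ≤ N → ∀ r : ℕ, r0 ≤ r →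
      (r : ℝ) ≤ κ * Real.log N →
      |({n : ℕ | 1 ≤ n ∧ n ≤ N ∧ W n r ≤ x * (Real.sqrt (Real.log r) / Real.pi)}.ncard : ℝ) / (N : ℝ) -
        (gaussianReal 0 1).real (Iic x)| ≤ ε) ∧
    ∀ (k : ℕ) (u : Fin k → ℕ → ℕ) (V : ℕ → ℝ) (a0 : Fin k → ℝ) (a : Fin k → Fin k → ℝ),
      Tendsto V atTop atTop → Tendsto (fun N : ℕ => V N / Real.log N) atTop (𝓝 0) →
      (∀ j, Tendsto (fun N : ℕ => (u j N : ℝ) / Real.log N) atTop (𝓝 0)) →
      (∀ j, Tendsto (fun N : ℕ => Real.log (1 + u j N) / V N) atTop (𝓝 (a0 j))) →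
      (∀ i j, Tendsto (fun N : ℕ => Real.log (1 + |(u i N : ℝ) - u j N|) / V N) atTop (𝓝 (a i j))) →
      (covMatrix a0 a).PosSemidef ∧ ∀ φ : EuclideanSpace ℝ (Fin k) →ᵇ ℝ,
        Tendsto (fun N : ℕ => (∑ n ∈ Finset.Icc 1 N, φ (WithLp.toLp 2 fun j => W n (u j N) / Real.sqrt (V N))) / (N : ℝ))
          atTop (𝓝 (∫ x, φ x ∂(multivariateGaussian 0 (covMatrix a0 a)))) := by
  refine ⟨fun x ε hε => ?_, fun k u V a0 a hV hVL hu ha0 ha => ?_⟩
  · refine Pool.Agent.H203.ME.unif_of_seq (P := fun N r =>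
      ({n : ℕ | 1 ≤ n ∧ n ≤ N ∧ W n r ≤ x * (Real.sqrt (Real.log r) / Real.pi)}.ncard : ℝ) / (N : ℝ))
      (fun r hr hrL => ?_) ε hε
    refine (Pool.Agent.H203.ME.F5L.finS Pool.Agent.H203.ME.p_ZER Pool.Agent.H203.ME.p_ADP Pool.Agent.H203.ME.p_SGF
      Pool.Agent.H203.ME.p_JB Pool.Agent.H203.ME.t_LEV Pool.Agent.H203.ME.p_WIN Pool.Agent.H203.ME.p_CN
      Pool.Agent.H203.ME.t_IDX Pool.Agent.H203.ME.t_IND Pool.Agent.H203.ME.t_NRM Pool.Agent.H203.ME.t_DYA
      hr hrL x).congr' ?_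
    have hlr : Tendsto (fun N : ℕ => Real.log (r N)) atTop atTop :=
      Real.tendsto_log_atTop.comp (tendsto_natCast_atTop_atTop.comp hr)
    filter_upwards [hlr.eventually_gt_atTop 0] with N hN
    congr 2
    rw [← Set.ncard_coe_finset]
    congr 1
    ext n
    simp only [Finset.coe_filter, Finset.mem_Icc, Set.mem_ofPred_eq]
    have h1 : 0 < Real.sqrt (Real.log (r N)) / Real.pi := div_pos (Real.sqrt_pos.2 hN) Real.pi_pos
    rw [div_le_iff₀ h1, and_assoc]
    rfl
  · exact Pool.Agent.H203.ME.F5L.finE Pool.Agent.H203.ME.p_ZER Pool.Agent.H203.ME.p_ADP Pool.Agent.H203.ME.p_SGF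
      Pool.Agent.H203.ME.p_JB Pool.Agent.H203.ME.t_LEV Pool.Agent.H203.ME.p_WIN Pool.Agent.H203.ME.p_CN
      Pool.Agent.H203.ME.t_IDX Pool.Agent.H203.ME.t_IND Pool.Agent.H203.ME.t_NRM Pool.Agent.H203.ME.t_DYA
      Pool.Agent.H203.ME.t_LEK hV hVL hu ha0 ha

end Pool.Agent.Results.MP_7eacff_nt.GapSumsGaussianField
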