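import Pool.Agent.H203.ME.ALL2

set_option autoImplicit false

/-!
# The mesoscopic law of the zeros of zeta, seen from a random zero (unconditional)

No hypothesis on the zeros is made: `γ` runs over the ordinates of all the nontrivial zeros, with multiplicity.
A zero is chosen at random in the window `T < γ ≤ 2T`; the other zeros are observed from it through smooth test
functions `f_j` at scales `h_j = h_j(T)` with `h_j → 0` and `h_j log T → ∞` (between the mean spacing and `1`), two
different scales being separated.  The centred sums converge jointly in law to the Gaussian vector with the covariance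
`(1/2π²) ∫_0^∞ ξ Re (f̂_i conj f̂_j) dξ` for equal scales and `0` for different scales.
-/

open Complex Filter Topology Set MeasureTheory ProbabilityTheory
open scoped BoundedContinuousFunction

namespace Pool.Agent.Results.MP_7eacff_nt.MesoscopicLawFromAZero

/-- the nontrivial zeros of zeta -/
def zeros : Set ℂ := {s : ℂ | riemannZeta s = 0 ∧ 0 < s.re ∧ s.re < 1}

/-- the nontrivial zeros with ordinate in `(T, 2T]` -/
def window (T : ℝ) : Set ℂ := {s : ℂ | s ∈ zeros ∧ T < s.im ∧ s.im ≤ 2 * T}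

/-- multiplicity of a zero of zeta -/
noncomputable def mult (s : ℂ) : ℕ := analyticOrderNatAt riemannZeta s

/-- the linear statistic `∑_γ f((γ - t)/h)`, centred by the mean density `log T / 2π` -/
noncomputable def lin (f : ℝ → ℝ) (h T t : ℝ) : ℝ :=
  (∑ᶠ s ∈ zeros, (mult s : ℝ) * f ((s.im - t) / h)) - h * Real.log T / (2 * Real.pi) * ∫ x : ℝ, f x

/-- the Fourier transform `∫ f(x) e^{-iξx} dx` -/
noncomputable def ft (f : ℝ → ℝ) (ξ : ℝ) : ℂ := ∫ x : ℝ, (f x : ℂ) * cexp (-(((ξ * x : ℝ) : ℂ) * I))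

/-- the limiting covariance at a common scale -/
noncomputable def cov (f g : ℝ → ℝ) : ℝ :=
  1 / (2 * Real.pi ^ 2) * ∫ ξ in Ioi (0 : ℝ), ξ * (ft f ξ * (starRingEnd ℂ) (ft g ξ)).re

open Classical in
/-- the limiting covariance matrix: different scales are independent -/
noncomputable def covMatrix {k : ℕ} (f : Fin k → ℝ → ℝ) (h : Fin k → ℝ → ℝ) : Matrix (Fin k) (Fin k) ℝ :=
  Matrix.of fun i j => if h i = h j then cov (f i) (f j) else 0

/-- **Mesoscopic central limit theorem from a random zero.** -/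
theorem result {k : ℕ} (f : Fin k → ℝ → ℝ) (hf : ∀ j, ContDiff ℝ 3 (f j)) (hs : ∀ j, HasCompactSupport (f j))
    (h : Fin k → ℝ → ℝ) (h0 : ∀ j, Tendsto (h j) atTop (𝓝 0))
    (h1 : ∀ j, Tendsto (fun T => h j T * Real.log T) atTop atTop)
    (hsep : ∀ i j, h i ≠ h j →
      Tendsto (fun T => h i T / h j T) atTop (𝓝 0) ∨ Tendsto (fun T => h j T / h i T) atTop (𝓝 0)) :
    (covMatrix f h).PosSemidef ∧
    ∀ φ : EuclideanSpace ℝ (Fin k) →ᵇ ℝ,
      Tendsto (fun T : ℝ =>
        (∑ᶠ s ∈ window T, (mult s : ℝ) * φ (WithLp.toLp 2 fun j => lin (f j) (h j T) T s.im)) /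
          (∑ᶠ s ∈ window T, (mult s : ℝ))) atTop
        (𝓝 (∫ x, φ x ∂(multivariateGaussian 0 (covMatrix f h)))) := by
  have hh : Pool.Agent.H203.ME.Scales h := ⟨h0, h1, hsep⟩
  have hf2 : ∀ j, ContDiff ℝ 2 (f j) := fun j => (hf j).of_le (by norm_num)
  have hM : covMatrix f h = Pool.Agent.H203.ME.cM f h := rfl
  refine ⟨by rw [hM]; exact Pool.Agent.H203.ME.FINL.cM_psd Pool.Agent.H203.ME.t_COV hf2 hs hh, fun φ => ?_⟩
  rw [hM]
  refine (Pool.Agent.H203.ME.finB Pool.Agent.H203.ME.p_ZER Pool.Agent.H203.ME.t_ADM Pool.Agent.H203.ME.t_COV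
    hf hs hh φ).congr' ?_
  filter_upwards [Pool.Agent.H203.ME.FINL.pos hh, eventually_ge_atTop (1 : ℝ)] with T hT hT1
  have hset : window T = H370.zset riemannZeta T (2 * T) := by
    ext s
    exact ⟨fun ⟨⟨a, b, c⟩, d, e⟩ => ⟨b, c, d, e, a⟩, fun ⟨b, c, d, e, a⟩ => ⟨⟨a, b, c⟩, d, e⟩⟩
  rw [hset, H370.finsum_Zf H370.good_zeta hT1, H370.finsum_Zf H370.good_zeta hT1,
    H370.NN_eq H370.good_zeta hT1]
  congr 1
  · refine Finset.sum_congr rfl fun z _ => ?_
    have : (Pool.Agent.H203.ME.Xv f (fun j => h j T) T z.im) =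
        WithLp.toLp 2 fun j => lin (f j) (h j T) T z.im := by
      unfold Pool.Agent.H203.ME.Xv
      congr 1
      funext j
      exact Pool.Agent.H203.ME.FINL.XF_scale (f j) (hT j) T z.im
    rw [this]
    rfl
  · push_cast
    rfl

end Pool.Agent.Results.MP_7eacff_nt.MesoscopicLawFromAZero
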