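import Pool.Agent.H666.LRC.All8

/-!
# The power spectrum of the gaps of the zeta zeros near frequency zero (under RH)

Let `P_N(θ) = (1/N) |∑_{n ≤ N} (δ_n - 1) e(n θ)|²` be the power spectrum of the first `N` unfolded
gaps.  The GUE hypothesis predicts that for `N → ∞` the measures `P_N(θ) dθ` converge to a measure
whose density near `θ = 0` is `θ` to leading order, that is, the ordinates themselves show `1/f` noise.
On the Riemann hypothesis we prove that near frequency zero the spectrum is indeed `θ`: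
`∫_0^h P_N(θ) dθ = h² / 2 + O(h³ log⁴(1/h))` as `N → ∞`, and with smooth weights
`∫_0^h G(θ/h) cos(2π m θ) (P_N(θ) - θ) dθ = O(h³ log³(m + 2/h))` for all `h ≤ 1/2` and `m ≥ 0`.
It follows that the mean square deviation `V_N(m)` of the sums of `m` consecutive gaps is
`(1/π²) log m + O(log log m)` for every `m ≥ 16`, and `(1/π²) log m + O(1)` on average over the windows
`[m, m + H)` with `log³(3m) ≤ H ≤ m/16`.

Proof.  Montgomery's theorem on the pair correlation gives the mean over `n` of
`∑_k f(S_k(n))`, where `S_k(n)` is the sum of `k` consecutive gaps and `f` has its Fourier transform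
supported in `(-1, 1)`; the pairs of zeros at large distance in the indices are estimated by
comparing Montgomery's theorem with Taylor's formula for a positive kernel.  Taylor's formula at
`x = k` and Poisson summation give `∑_k f''(k) V(k)`, `V(k)` the mean square of `S_k - k`, up to
`O(∑_k |f'''(k)| log³ k)` by the rigidity of the zeros; two summations by parts give
`∑_k f(k) C(k)`, `C(k)` the covariance of two gaps at distance `k`, which is the integral of the
power spectrum against the Fourier transform of `f`.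

The sharp cutoff at `h` is compared with trapezoids whose sides have width `h²`; these are uniformly
close to cosine polynomials of length `h⁻⁴` with sum of coefficients `O(log(1/h))`, and the estimate with
the smooth cutoff holds for each cosine.

`V_N(m)` is the integral of the power spectrum against the Fejér kernel `|∑_{j<m} e(jθ)|²`.  The
frequencies `θ ≤ 1/m` contribute `O(1)`, since the mass of `[0, h]` is `O(h²)`; a smooth dyadic
partition of the frequencies between `1/m` and `h₀ = log⁻³(3m)` gives `(1/π²) log(m h₀)`, with an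
error `∑ h log³(3m) = O(1)` over the dyadic scales `h ≤ h₀`; and those above `h₀` contribute
`O(log(1/h₀)) = O(log log m)`, again since the mass of `[0, h]` is `O(h²)`.  On average over a window of
length `H` the Fejér kernels are `1/(2π²θ²) + O(1 + 1/(Hθ³))`, and the dyadic partition, now used for all
frequencies above `1/H` and without the cosine, gives `(1/π²) log H + O(1)` for them.
-/

open Filter

namespace Pool.Agent.Results.MP_7eacff_nt.PowerSpectrum

/-- multiplicity of `s` as a zero of the Riemann zeta function (order of vanishing at `s`) -/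
noncomputable def zmult (s : ℂ) : ℕ := analyticOrderNatAt riemannZeta s

/-- the number of nontrivial zeros of `ζ` with ordinate in `(0, t]`, with multiplicity -/
noncomputable def NZ (t : ℝ) : ℕ :=
  ∑ᶠ s ∈ {s : ℂ | riemannZeta s = 0 ∧ 0 < s.re ∧ s.re < 1 ∧ 0 < s.im ∧ s.im ≤ t}, zmult s

/-- for `n ≥ 1`: the `n`-th positive ordinate `γ n` of a nontrivial zero of `ζ`, the ordinates being
listed in nondecreasing order and repeated according to multiplicity -/
noncomputable def γ (n : ℕ) : ℝ := sInf {t : ℝ | n ≤ NZ t}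

/-- the unfolded consecutive gaps `δ_n = (γ_{n+1} - γ_n) / 2π · log (γ_n / 2π)` -/
noncomputable def δ (n : ℕ) : ℝ := (γ (n + 1) - γ n) / (2 * Real.pi) * Real.log (γ n / (2 * Real.pi))

/-- the power spectrum of the first `N` gaps: `P_N(θ) = (1/N) |∑_{n ≤ N} (δ_n - 1) e(n θ)|²` -/
noncomputable def P (N : ℕ) (θ : ℝ) : ℝ :=
  (1 / N : ℝ) * ‖∑ n ∈ Finset.Icc 1 N,
    ((δ n - 1 : ℝ) : ℂ) * Complex.exp (2 * Real.pi * Complex.I * n * θ)‖ ^ 2

/-- the mean square deviation of the sum of `m` consecutive gaps: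
`V_N(m) = (1/N) ∑_{n ≤ N} (δ_n + … + δ_{n+m-1} - m)²` -/
noncomputable def V (N m : ℕ) : ℝ :=
  (1 / N : ℝ) * ∑ n ∈ Finset.Icc 1 N, (∑ i ∈ Finset.range m, δ (n + i) - m) ^ 2

/-- On the Riemann hypothesis:
(1) for every `C²` function `G` with `G(1) = 0` there is `K` such that for all real `0 < h ≤ 1/2` and
`m ≥ 0`, for all large `N`,
`|∫_0^h G(θ/h) cos(2π m θ) (P_N(θ) - θ) dθ| ≤ K h³ log³(m + 2/h)`;
(2) there is `K` such that for all real `0 < h ≤ 1/2`, for all large `N`,
`|∫_0^h P_N(θ) dθ - h²/2| ≤ K h³ log⁴(1/h)`;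
(3) there is `K` such that for every `m ≥ 16`, for all large `N`,
`|V_N(m) - (1/π²) log m| ≤ K log log m`;
(4) there is `K` such that for all integers `m ≥ 1` and `H` with `log³(3m) ≤ H ≤ m/16`, for all large
`N`, `|(1/H) ∑_{m ≤ j < m + H} V_N(j) - (1/π²) log m| ≤ K`. -/
theorem result (RH : RiemannHypothesis) :
    (∀ G : ℝ → ℝ, ContDiff ℝ 2 G → G 1 = 0 → ∃ K : ℝ, ∀ h m : ℝ, 0 < h → h ≤ 1 / 2 → 0 ≤ m →
      ∀ᶠ N : ℕ in atTop,
        |∫ θ in (0 : ℝ)..h, G (θ / h) * Real.cos (2 * Real.pi * m * θ) * (P N θ - θ)| ≤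
          K * (h ^ 3 * Real.log (m + 2 / h) ^ 3)) ∧
    (∃ K : ℝ, ∀ h : ℝ, 0 < h → h ≤ 1 / 2 → ∀ᶠ N : ℕ in atTop,
      |(∫ θ in (0 : ℝ)..h, P N θ) - h ^ 2 / 2| ≤ K * (h ^ 3 * Real.log (1 / h) ^ 4)) ∧
    (∃ K : ℝ, ∀ m : ℕ, 16 ≤ m → ∀ᶠ N : ℕ in atTop,
      |V N m - 1 / Real.pi ^ 2 * Real.log m| ≤ K * Real.log (Real.log m)) ∧
    (∃ K : ℝ, ∀ m H : ℕ, 1 ≤ m → Real.log (3 * m) ^ 3 ≤ H → 16 * H ≤ m → ∀ᶠ N : ℕ in atTop,
      |(1 / H : ℝ) * ∑ j ∈ Finset.Ico m (m + H), V N j - 1 / Real.pi ^ 2 * Real.log m| ≤ K) := by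
  have hcl := Pool.Agent.H666.LRC.close_dl RH
  have hV : ∀ N m : ℕ, V N m =
      Pool.Agent.H666.LRC.Vr (fun n => Pool.Agent.H666.ZG.dl n - 1) N m := by
    intro N m
    unfold V Pool.Agent.H666.LRC.Vr
    congr 1
    apply Finset.sum_congr rfl
    intro n _
    have e1 : ∑ i ∈ Finset.range m, (Pool.Agent.H666.ZG.dl (n + i) - 1) =
        ∑ i ∈ Finset.range m, Pool.Agent.H666.ZG.dl (n + i) - m := by
      rw [Finset.sum_sub_distrib]
      simp
    rw [e1]
    rfl
  refine ⟨fun G hG hG1 => ?_, ?_, ?_, ?_⟩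
  · obtain ⟨K, -, h⟩ := Pool.Agent.H666.LRC.spectrum_final RH (G := G) ⟨hG, hG1⟩ hcl
    exact ⟨K, h⟩
  · obtain ⟨K, -, h⟩ := Pool.Agent.H666.LRC.sharp_final RH hcl
    exact ⟨K, h⟩
  · obtain ⟨K, h⟩ := Pool.Agent.H666.LRC.var_final RH hcl
    refine ⟨K, fun m hm => ?_⟩
    filter_upwards [h m hm] with N h1
    rw [hV]
    exact h1
  · obtain ⟨K, h⟩ := Pool.Agent.H666.LRC.varavg_final RH hcl
    refine ⟨K, fun m H hm hL hH => ?_⟩
    filter_upwards [h m H hm hL hH] with N h1
    simp only [hV]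
    exact h1

end Pool.Agent.Results.MP_7eacff_nt.PowerSpectrum
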